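import Mathlib
import Pool.Agent.Y203.QC.Mach
import Pool.Agent.Helper961.Aub.XMove

/-!
The physical move satisfies the relation `Mv` (machine with carry and borrow).
-/

set_option autoImplicit false

open Set Filter Topology

namespace Pool.Agent.Y203.QC

open Pool.Agent.Aub (mm lam Stk dt stp Sc S1 S2 Qx gT gt cT ct hC hX Dg Ty stg rho mu posn peel cE cF
  DD rb subTy subP subC sub broken Clamp Ix Zs stk reg mkz Wt f0 f1 f4 f6 g0 g1 M0 M4 M6 N1 tyj pj)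
open Pool.Agent.Aub (X03_Dg_le X03_Dg_nonneg X03_M0_hi X03_M0_lo X03_Qx_ge X03_Qx_le X03_Qx_le_mm
  X03_Qx_nonneg X03_S1_le X03_S2_ge X03_Sc_le_one X03_Sc_nonneg X03_Sc_one X03_Sc_pos X03_Sc_zero
  X03_Wt_congr X03_cT_nonneg X03_cT_one X03_clamp X03_ct_le_one X03_ct_nonneg X03_ct_pos X03_f1_10
  X03_f1_11 X03_f1_4 X03_f1_5 X03_f1_6 X03_f1_7 X03_f1_8 X03_f1_9 X03_gT_one X03_ge_quarter
  X03_gt_nonneg X03_gt_pos X03_hC_clamp X03_hC_eq X03_hC_hi X03_hC_lam X03_hC_lo X03_hX_clamp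
  X03_hX_eq X03_hX_hi X03_hX_le X03_hX_lo X03_hX_mono X03_lam X03_lam_pos X03_le_quarter X03_mm
  X03_mmZ X03_q_le X03_read X03_read0 X03_read1 X03_src X03_stp_le_one X03_stp_lt X03_stp_nonneg
  X03_stp_one X03_stp_pos X03_stp_zero X03_tgt X03_v2 X03_v3 X03_v4)

theorem QM_bb : (bb : ℝ) = 4095 := by unfold bb; norm_num
theorem QM_bbZ : (bb : ℤ) = 4095 := by unfold bb; norm_num

theorem QM_hX_hX (t : ℝ) : hX (hX t) = hX t := by
  refine X03_hX_eq ?_ (X03_hX_le t)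
  unfold hX
  exact le_max_left _ _

theorem QM_f2_4 (d : Fin 3) (z : Zs) : reg (f2 d z) 4 = 0 := by
  simp [f2, reg, mkz]
theorem QM_f2_5 (d : Fin 3) (z : Zs) : reg (f2 d z) 5 = 0 := by
  simp [f2, reg, mkz]
theorem QM_f2_6 (d : Fin 3) (z : Zs) : reg (f2 d z) 6 = 0 := by
  simp [f2, reg, mkz]
theorem QM_f2_7 (d : Fin 3) (z : Zs) : reg (f2 d z) 7 = 0 := by
  simp [f2, reg, mkz]
theorem QM_f2_8 (d : Fin 3) (z : Zs) : reg (f2 d z) 8 = 0 := by
  simp [f2, reg, mkz]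
theorem QM_f2_9 (d : Fin 3) (z : Zs) : reg (f2 d z) 9 = 0 := by
  simp [f2, reg, mkz]

theorem QM_out_s (cc : Clamp (5/4)) (cx : Clamp (mm + 1/2)) (b : Bool) (s d : Fin 3)
    (hsd : s ≠ d) (r : ℝ) (z : Zs) (hw : Wt b z = 1) (tr : Fin 5) :
    stk (cm cc cx b s d r z) s tr = lam * (stk (M0 cc cx s d z) s tr -
      ![Sc (reg z 1 + Sc (stk (M0 cc cx s d z) s 0)),
        Sc (reg z 2 + Sc (stk (M0 cc cx s d z) s 1)),
        Qx (reg z 7 + S2 (stk (M0 cc cx s d z) s 2)),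
        Qx (reg z 8 + S2 (stk (M0 cc cx s d z) s 3)),
        Qx (reg z 9 + S2 (stk (M0 cc cx s d z) s 4))] tr) := by
  unfold cm
  dsimp only
  generalize hz0 : M0 cc cx s d z = z0
  have hr0 : reg z0 = reg z := by rw [← hz0]; rfl
  generalize hz1 : z0 + f1 s d z0 = z1
  have hr1 : ∀ k, reg z1 k = reg z0 k + reg (f1 s d z0) k := fun k => by rw [← hz1]; rfl
  have hs1 : ∀ i tr, stk z1 i tr = stk z0 i tr := fun i tr => by
    rw [← hz1]
    show stk z0 i tr + 0 = _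
    rw [add_zero]
  generalize hz2 : z1 + f2 d z1 = z2
  have hr2 : ∀ k, reg z2 k = reg z1 k + reg (f2 d z1) k := fun k => by rw [← hz2]; rfl
  have hs2 : ∀ i tr, stk z2 i tr = stk z1 i tr := fun i tr => by
    rw [← hz2]
    show stk z1 i tr + 0 = _
    rw [add_zero]
  generalize hz3 : z2 + f3 b s d z2 = z3
  have hr3 : ∀ k, reg z3 k = reg z2 k := fun k => by
    rw [← hz3]
    show reg z2 k + 0 = _
    rw [add_zero]
  have hs3 : ∀ i tr, stk z3 i tr = stk z2 i tr + stk (f3 b s d z2) i tr := fun i tr => by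
    rw [← hz3]; rfl
  generalize hz4 : M4 b s d z3 = z4
  generalize hz5 : z4 + f5 b d r z4 = z5
  have hs5 : ∀ i tr, stk z5 i tr = stk z4 i tr + stk (f5 b d r z4) i tr := fun i tr => by
    rw [← hz5]; rfl
  have hreg0 : reg z2 0 = reg z 0 := by
    rw [hr2, hr1, hr0]
    show reg z 0 + 0 + 0 = _
    ring
  have hw2 : Wt b z2 = 1 := by rw [X03_Wt_congr hreg0, hw]
  have hw3 : Wt b z3 = 1 := by rw [X03_Wt_congr (hr3 0), hw2]
  show stk z5 s tr = _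
  have e5 : stk (f5 b d r z4) s tr = 0 := by
    show (if s = d then _ else _) = _
    rw [if_neg hsd]
  rw [hs5, e5, add_zero]
  have e4 : stk z4 s tr = lam * stk z3 s tr := by
    rw [← hz4]
    show (if s = s then Real.exp (Wt b z3 * Real.log lam) * stk z3 s tr else _) = _
    rw [if_pos rfl, hw3, one_mul, Real.exp_log X03_lam_pos]
  rw [e4, hs3, hs2, hs1]
  have e3 : stk (f3 b s d z2) s tr =
      -(Wt b z2 * ![Sc (reg z2 1), Sc (reg z2 2), Qx (reg z2 7), Qx (reg z2 8), Qx (reg z2 9)] tr) := by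
    show (if s = s then _ else _) = _
    rw [if_pos rfl]
  rw [e3, hw2, one_mul]
  have r1 : reg z2 1 = reg z 1 + Sc (stk z0 s 0) := by
    rw [hr2, hr1, hr0]
    show reg z 1 + Sc (stk z0 s 0) + 0 = _
    ring
  have r2 : reg z2 2 = reg z 2 + Sc (stk z0 s 1) := by
    rw [hr2, hr1, hr0]
    show reg z 2 + Sc (stk z0 s 1) + 0 = _
    ring
  have r7 : reg z2 7 = reg z 7 + S2 (stk z0 s 2) := by
    rw [hr2, hr1, hr0, X03_f1_7, QM_f2_7, add_zero]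
  have r8 : reg z2 8 = reg z 8 + S2 (stk z0 s 3) := by
    rw [hr2, hr1, hr0, X03_f1_8, QM_f2_8, add_zero]
  have r9 : reg z2 9 = reg z 9 + S2 (stk z0 s 4) := by
    rw [hr2, hr1, hr0, X03_f1_9, QM_f2_9, add_zero]
  rw [r1, r2, r7, r8, r9]
  ring

/-- the value `hT` -/
noncomputable def QM_hT (cc : Clamp (5/4)) (cx : Clamp (mm + 1/2)) (s d : Fin 3) (z : Zs) : ℝ :=
  reg z 10 + (1 - Sc (reg z 1 + Sc (stk (M0 cc cx s d z) s 0))) *
    (gT (stk (M0 cc cx s d z) d 0) *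
      cT (Qx (reg z 6 + S1 (stk (M0 cc cx s d z) s 4))) (stk (M0 cc cx s d z) d 2) -
    gt (stk (M0 cc cx s d z) d 0) *
      bt (Qx (reg z 6 + S1 (stk (M0 cc cx s d z) s 4))) (stk (M0 cc cx s d z) d 2))

/-- the value `ht` -/
noncomputable def QM_ht (cc : Clamp (5/4)) (cx : Clamp (mm + 1/2)) (s d : Fin 3) (z : Zs) : ℝ :=
  reg z 11 + (1 - Sc (reg z 1 + Sc (stk (M0 cc cx s d z) s 0))) *
    (gt (stk (M0 cc cx s d z) d 0) *
      ct (Qx (reg z 6 + S1 (stk (M0 cc cx s d z) s 4))) (stk (M0 cc cx s d z) d 2) -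
    gT (stk (M0 cc cx s d z) d 0) *
      bT (Qx (reg z 6 + S1 (stk (M0 cc cx s d z) s 4))) (stk (M0 cc cx s d z) d 2))

theorem QM_out_d (cc : Clamp (5/4)) (cx : Clamp (mm + 1/2)) (b : Bool) (s d : Fin 3)
    (hsd : s ≠ d) (r : ℝ) (z : Zs) (hw : Wt b z = 1) (tr : Fin 5) :
    stk (cm cc cx b s d r z) d tr =
      (stk (M0 cc cx s d z) d tr - if tr = 2 then (bb : ℝ) * Sg (QM_hT cc cx s d z) else 0) / lam +
      ![1 - Sc (reg z 1 + Sc (stk (M0 cc cx s d z) s 0)),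
        (1 - Sc (reg z 1 + Sc (stk (M0 cc cx s d z) s 0))) *
          (1 - Sc (reg z 3 + Sc (stk (M0 cc cx s d z) d 1))),
        Qx (GG (Qx (reg z 4 + S1 (stk (M0 cc cx s d z) s 2)))
          (Qx (reg z 5 + S1 (stk (M0 cc cx s d z) s 3)))
          (Qx (reg z 6 + S1 (stk (M0 cc cx s d z) s 4)))
          (Sg (QM_ht cc cx s d z)) 0 * (1 - r)),
        Qx (GG (Qx (reg z 4 + S1 (stk (M0 cc cx s d z) s 2)))
          (Qx (reg z 5 + S1 (stk (M0 cc cx s d z) s 3)))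
          (Qx (reg z 6 + S1 (stk (M0 cc cx s d z) s 4)))
          (Sg (QM_ht cc cx s d z)) 1 * (1 - r)),
        Qx (GG (Qx (reg z 4 + S1 (stk (M0 cc cx s d z) s 2)))
          (Qx (reg z 5 + S1 (stk (M0 cc cx s d z) s 3)))
          (Qx (reg z 6 + S1 (stk (M0 cc cx s d z) s 4)))
          (Sg (QM_ht cc cx s d z)) 2 * (1 - r))] tr := by
  unfold cm QM_hT QM_ht
  dsimp only
  generalize hz0 : M0 cc cx s d z = z0
  have hr0 : reg z0 = reg z := by rw [← hz0]; rfl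
  generalize hz1 : z0 + f1 s d z0 = z1
  have hr1 : ∀ k, reg z1 k = reg z0 k + reg (f1 s d z0) k := fun k => by rw [← hz1]; rfl
  have hs1 : ∀ i tr, stk z1 i tr = stk z0 i tr := fun i tr => by
    rw [← hz1]
    show stk z0 i tr + 0 = _
    rw [add_zero]
  generalize hz2 : z1 + f2 d z1 = z2
  have hr2 : ∀ k, reg z2 k = reg z1 k + reg (f2 d z1) k := fun k => by rw [← hz2]; rfl
  have hs2 : ∀ i tr, stk z2 i tr = stk z1 i tr := fun i tr => by
    rw [← hz2]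
    show stk z1 i tr + 0 = _
    rw [add_zero]
  generalize hz3 : z2 + f3 b s d z2 = z3
  have hr3 : ∀ k, reg z3 k = reg z2 k := fun k => by
    rw [← hz3]
    show reg z2 k + 0 = _
    rw [add_zero]
  have hs3 : ∀ i tr, stk z3 i tr = stk z2 i tr + stk (f3 b s d z2) i tr := fun i tr => by
    rw [← hz3]; rfl
  generalize hz4 : M4 b s d z3 = z4
  have hr4 : ∀ k, reg z4 k = reg z3 k := fun k => by rw [← hz4]; rfl
  generalize hz5 : z4 + f5 b d r z4 = z5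
  have hs5 : ∀ i tr, stk z5 i tr = stk z4 i tr + stk (f5 b d r z4) i tr := fun i tr => by
    rw [← hz5]; rfl
  have hreg0 : reg z2 0 = reg z 0 := by
    rw [hr2, hr1, hr0]
    show reg z 0 + 0 + 0 = _
    ring
  have hw2 : Wt b z2 = 1 := by rw [X03_Wt_congr hreg0, hw]
  have hw3 : Wt b z3 = 1 := by rw [X03_Wt_congr (hr3 0), hw2]
  have hw4 : Wt b z4 = 1 := by rw [X03_Wt_congr (hr4 0), hw3]
  show stk z5 d tr = _
  have e5 : stk (f5 b d r z4) d tr = pushed r z4 tr := by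
    show (if d = d then Wt b z4 * pushed r z4 tr else _) = _
    rw [if_pos rfl, hw4, one_mul]
  have e4 : stk z4 d tr = stk z3 d tr / lam := by
    rw [← hz4]
    show (if d = s then _ else if d = d then
      Real.exp (-(Wt b z3 * Real.log lam)) * stk z3 d tr else _) = _
    rw [if_neg hsd.symm, if_pos rfl, hw3, one_mul, Real.exp_neg, Real.exp_log X03_lam_pos]
    ring
  have k1 : reg z1 1 = reg z 1 + Sc (stk z0 s 0) := by rw [hr1, hr0]; rfl
  have k6 : reg z1 6 = reg z 6 + S1 (stk z0 s 4) := by rw [hr1, hr0, X03_f1_6]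
  have k10 : reg z1 10 = reg z 10 := by
    rw [hr1, hr0]
    show reg z 10 + 0 = _
    ring
  have k11 : reg z1 11 = reg z 11 := by
    rw [hr1, hr0]
    show reg z 11 + 0 = _
    ring
  have r1 : reg z2 1 = reg z 1 + Sc (stk z0 s 0) := by
    rw [hr2, k1]
    show reg z 1 + Sc (stk z0 s 0) + 0 = _
    ring
  have r3 : reg z2 3 = reg z 3 + Sc (stk z0 d 1) := by
    rw [hr2, hr1, hr0]
    show reg z 3 + Sc (stk z0 d 1) + 0 = _
    ring
  have r4 : reg z2 4 = reg z 4 + S1 (stk z0 s 2) := by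
    rw [hr2, hr1, hr0, X03_f1_4, QM_f2_4, add_zero]
  have r5 : reg z2 5 = reg z 5 + S1 (stk z0 s 3) := by
    rw [hr2, hr1, hr0, X03_f1_5, QM_f2_5, add_zero]
  have r6 : reg z2 6 = reg z 6 + S1 (stk z0 s 4) := by
    rw [hr2, k6, QM_f2_6, add_zero]
  have r10 : reg z2 10 = reg z 10 + (1 - Sc (reg z 1 + Sc (stk z0 s 0))) *
      (gT (stk z0 d 0) * cT (Qx (reg z 6 + S1 (stk z0 s 4))) (stk z0 d 2) -
        gt (stk z0 d 0) * bt (Qx (reg z 6 + S1 (stk z0 s 4))) (stk z0 d 2)) := by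
    rw [hr2, k10]
    show reg z 10 + (1 - Sc (reg z1 1)) * (gT (stk z1 d 0) * cT (Qx (reg z1 6)) (stk z1 d 2) -
      gt (stk z1 d 0) * bt (Qx (reg z1 6)) (stk z1 d 2)) = _
    rw [k1, k6, hs1, hs1]
  have r11 : reg z2 11 = reg z 11 + (1 - Sc (reg z 1 + Sc (stk z0 s 0))) *
      (gt (stk z0 d 0) * ct (Qx (reg z 6 + S1 (stk z0 s 4))) (stk z0 d 2) -
        gT (stk z0 d 0) * bT (Qx (reg z 6 + S1 (stk z0 s 4))) (stk z0 d 2)) := by
    rw [hr2, k11]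
    show reg z 11 + (1 - Sc (reg z1 1)) * (gt (stk z1 d 0) * ct (Qx (reg z1 6)) (stk z1 d 2) -
      gT (stk z1 d 0) * bT (Qx (reg z1 6)) (stk z1 d 2)) = _
    rw [k1, k6, hs1, hs1]
  have e3 : stk (f3 b s d z2) d tr = -(if tr = 2 then (bb : ℝ) * Sg (reg z2 10) else 0) := by
    show (if d = s then _ else if d = d ∧ tr = 2 then -(Wt b z2 * ((bb : ℝ) * Sg (reg z2 10)))
      else 0) = _
    rw [if_neg hsd.symm, hw2, one_mul]
    by_cases ht : tr = 2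
    · rw [if_pos ⟨rfl, ht⟩, if_pos ht]
    · rw [if_neg (fun h => ht h.2), if_neg ht, neg_zero]
  rw [hs5, e5, e4, hs3, hs2, hs1, e3, r10, ← sub_eq_add_neg]
  congr 1
  unfold pushed
  rw [hr4, hr4, hr4, hr4, hr4, hr4, hr3, hr3, hr3, hr3, hr3, hr3, r1, r3, r4, r5, r6, r11]

/-! carries and borrows -/

theorem QM_bT_nonneg (a b : ℝ) : 0 ≤ bT a b := by
  unfold bT
  exact mul_nonneg (X03_stp_nonneg _ _ _) (by linarith [X03_stp_le_one (3/8) (1/2) b])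

theorem QM_bt_nonneg (a b : ℝ) : 0 ≤ bt a b := by
  unfold bt
  exact mul_nonneg (X03_stp_nonneg _ _ _) (by linarith [X03_stp_le_one (1/8) (1/4) b])

theorem QM_bt_le_one (a b : ℝ) : bt a b ≤ 1 := by
  unfold bt
  exact mul_le_one₀ (X03_stp_le_one _ _ _) (by linarith [X03_stp_le_one (1/8) (1/4) b])
    (by linarith [X03_stp_nonneg (1/8) (1/4) b])

theorem QM_bt_pos {a b : ℝ} (h : 0 < bt a b) : 1/2 < a ∧ b < 1/4 := by
  unfold bt at h
  constructor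
  · by_contra hcon
    rw [X03_stp_zero (by norm_num) (not_lt.mp hcon), zero_mul] at h
    exact lt_irrefl _ h
  · by_contra hcon
    rw [X03_stp_one (a := 1/8) (by norm_num) (not_lt.mp hcon), sub_self, mul_zero] at h
    exact lt_irrefl _ h

theorem QM_bt_zero {a b : ℝ} (h : 1/4 ≤ b) : bt a b = 0 := by
  unfold bt
  rw [X03_stp_one (a := 1/8) (by norm_num) h, sub_self, mul_zero]

theorem QM_bT_one {a b : ℝ} (h1 : 1/2 < a) (h2 : b < 1/4) : bT a b = 1 := by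
  unfold bT
  rw [X03_stp_one (a := 1/4) (by norm_num) (by linarith),
    X03_stp_zero (b := 1/2) (by norm_num) (by linarith)]
  norm_num

theorem QM_ct_zero {a b : ℝ} (h : b ≤ mm - 1/4) : ct a b = 0 := by
  unfold ct
  rw [X03_stp_zero (by linarith) h]
  norm_num

theorem QM_Sg_le (t : ℝ) : Sg t ≤ 1 := by
  unfold Sg
  linarith [X03_Sc_le_one t, X03_Sc_nonneg (-t)]

theorem QM_Sg_ge (t : ℝ) : -1 ≤ Sg t := by
  unfold Sg
  linarith [X03_Sc_le_one (-t), X03_Sc_nonneg t]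

theorem QM_Sg_pos {t : ℝ} (h : 0 < Sg t) : 1/4 < t := by
  unfold Sg at h
  exact X03_Sc_pos (by linarith [X03_Sc_nonneg (-t)])

theorem QM_Sg_neg {t : ℝ} (h : Sg t < 0) : 1/4 < -t := by
  unfold Sg at h
  exact X03_Sc_pos (by linarith [X03_Sc_nonneg t])

theorem QM_Sg_one {t : ℝ} (h : 3/4 ≤ t) : Sg t = 1 := by
  unfold Sg
  rw [X03_Sc_one h, X03_Sc_zero (by linarith)]
  norm_num

theorem QM_Sg_neg_one {t : ℝ} (h : t ≤ -3/4) : Sg t = -1 := by
  unfold Sg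
  rw [X03_Sc_one (t := -t) (by linarith), X03_Sc_zero (t := t) (by linarith)]
  norm_num

theorem QM_carry (a b : ℝ) (D E : ℤ) (hD : 0 ≤ D) (hE : 0 ≤ E) (ha : a ≤ D) (hb : b ≤ E) :
    ∃ D1 E1 : ℤ, 0 ≤ D1 ∧ 0 ≤ E1 ∧ carryHi a b ≤ D1 ∧ carryLo a b ≤ E1 ∧
      (bb:ℤ) * D1 + E1 ≤ bb * D + E := by
  have hmm := X03_mm
  have hbb := QM_bb
  rcases (X03_ct_nonneg a b).lt_or_eq with h | h
  · obtain ⟨h1, h2, h3⟩ := X03_ct_pos h
    have hE1 : (4096:ℤ) ≤ E := by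
      have h4 : ((4095:ℤ):ℝ) < E := by
        push_cast
        linarith
      have h5 : (4095:ℤ) < E := by exact_mod_cast h4
      omega
    refine ⟨D + 1, E - bb, by omega, by rw [QM_bbZ]; omega, ?_, ?_, ?_⟩
    · unfold carryHi
      push_cast
      linarith [X03_ct_le_one a b, QM_bT_nonneg a b]
    · unfold carryLo
      rw [X03_cT_one h1 h2 h3, QM_bt_zero (by linarith)]
      push_cast
      linarith
    · linarith
  · rcases (QM_bt_nonneg a b).lt_or_eq with h' | h'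
    · obtain ⟨h1, h2⟩ := QM_bt_pos h'
      have hD1 : 0 < D := by
        have h4 : ((0:ℤ):ℝ) < D := by
          push_cast
          linarith
        exact_mod_cast h4
      refine ⟨D - 1, E + bb, by omega, by rw [QM_bbZ]; omega, ?_, ?_, ?_⟩
      · unfold carryHi
        rw [← h, QM_bT_one h1 h2]
        push_cast
        linarith
      · unfold carryLo
        have h5 := X03_cT_nonneg a b
        have h6 := QM_bt_le_one a b
        push_cast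
        rw [hbb]
        nlinarith
      · linarith
    · refine ⟨D, E, hD, hE, ?_, ?_, le_rfl⟩
      · unfold carryHi
        rw [← h]
        linarith [QM_bT_nonneg a b]
      · unfold carryLo
        have h5 := X03_cT_nonneg a b
        rw [← h', hbb]
        nlinarith

theorem QM_Vz (a0 a1 a2 T : ℝ) (D : Fin 3 → ℤ) (hD : ∀ k, 0 ≤ D k) (h0 : a0 ≤ D 0)
    (h1 : a1 ≤ D 1) (f : Fl) (E2 : ℤ) (hE20 : 0 ≤ E2) (hE2b : a2 + T ≤ E2)
    (hE2 : (E2 : ℝ) + f.cre ≤ (D 2 : ℝ) + f.deb) :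
    Vz (fun k => max 0 ⌈GG a0 a1 a2 T k - 1/4⌉) + f.cre ≤ Vz D + f.deb := by
  obtain ⟨D1, E1, hD10, hE10, hE1a, hE1b, hE1c⟩ :=
    QM_carry a1 (a2 + T) (D 1) E2 (hD 1) hE20 h1 hE2b
  obtain ⟨D0, E0, hD00, hE00, hE0a, hE0b, hE0c⟩ :=
    QM_carry a0 (carryHi a1 (a2 + T)) (D 0) D1 (hD 0) hD10 h0 hE1a
  have hg : ∀ (t : ℝ) (E : ℤ), 0 ≤ E → t ≤ E → ((max 0 ⌈t - 1/4⌉ : ℤ) : ℝ) ≤ E := by
    intro t E hE ht
    have h3 : max 0 ⌈t - 1/4⌉ ≤ E := by
      apply max_le hE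
      rw [Int.ceil_le]
      linarith
    exact_mod_cast h3
  have e0 : GG a0 a1 a2 T 0 = carryHi a0 (carryHi a1 (a2 + T)) := rfl
  have e1 : GG a0 a1 a2 T 1 = carryLo a0 (carryHi a1 (a2 + T)) := rfl
  have e2 : GG a0 a1 a2 T 2 = carryLo a1 (a2 + T) := rfl
  have r0 := hg _ _ hD00 hE0a
  have r1 := hg _ _ hE00 hE0b
  have r2 := hg _ _ hE10 hE1b
  unfold Vz
  simp only [e0, e1, e2]
  have c0 : (bb:ℝ) * D0 + E0 ≤ bb * D 0 + D1 := by exact_mod_cast hE0c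
  have c1 : (bb:ℝ) * D1 + E1 ≤ bb * D 1 + E2 := by exact_mod_cast hE1c
  generalize ((max 0 ⌈carryHi a0 (carryHi a1 (a2 + T)) - 1/4⌉ : ℤ) : ℝ) = G0 at r0 ⊢
  generalize ((max 0 ⌈carryLo a0 (carryHi a1 (a2 + T)) - 1/4⌉ : ℤ) : ℝ) = G1 at r1 ⊢
  generalize ((max 0 ⌈carryLo a1 (a2 + T) - 1/4⌉ : ℤ) : ℝ) = G2 at r2 ⊢
  rw [QM_bb] at *
  nlinarith

theorem QM_gates (cc : Clamp (5/4)) (cx : Clamp (mm + 1/2)) (β ρ10 ρ11 x0 x2 a2 : ℝ)
    (hβ : β = 0 ∨ β = 1) (h10 : |ρ10| ≤ 1/16) (h11 : |ρ11| ≤ 1/16) :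
    (β = 0 ∧ (x0 ≤ 1/8 ∨ 7/8 ≤ x0) ∧ (mm:ℝ) - 1/4 ≤ x2 ∧ x2 ≤ mm + 1/4 ∧
      Sg (ρ10 + (1 - β) * (gT (cc.Φ 1 x0) * cT a2 (cx.Φ 1 x2) -
        gt (cc.Φ 1 x0) * bt a2 (cx.Φ 1 x2))) = 1) ∨
    (β = 0 ∧ (x0 ≤ 1/8 ∨ 7/8 ≤ x0) ∧ x2 ≤ 1/4 ∧
      Sg (ρ11 + (1 - β) * (gt (cc.Φ 1 x0) * ct a2 (cx.Φ 1 x2) -
        gT (cc.Φ 1 x0) * bT a2 (cx.Φ 1 x2))) = -1 ∧ 1/2 < a2 ∧ cx.Φ 1 x2 < 1/4) ∨
    (0 ≤ Sg (ρ10 + (1 - β) * (gT (cc.Φ 1 x0) * cT a2 (cx.Φ 1 x2) -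
        gt (cc.Φ 1 x0) * bt a2 (cx.Φ 1 x2))) ∧
      Sg (ρ11 + (1 - β) * (gt (cc.Φ 1 x0) * ct a2 (cx.Φ 1 x2) -
        gT (cc.Φ 1 x0) * bT a2 (cx.Φ 1 x2))) ≤ 0) := by
  have hmm := X03_mm
  have hgT0 : 0 ≤ gT (cc.Φ 1 x0) := (Pool.Agent.Aub.X02_gT _).1
  have hgt0 : 0 ≤ gt (cc.Φ 1 x0) := X03_gt_nonneg _
  have hcT0 := X03_cT_nonneg a2 (cx.Φ 1 x2)
  have hct0 := X03_ct_nonneg a2 (cx.Φ 1 x2)
  have hbT0 := QM_bT_nonneg a2 (cx.Φ 1 x2)
  have hbt0 := QM_bt_nonneg a2 (cx.Φ 1 x2)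
  have hx0 : 0 < gt (cc.Φ 1 x0) → (x0 ≤ 1/8 ∨ 7/8 ≤ x0) ∧ gT (cc.Φ 1 x0) = 1 := by
    intro h3
    have h5 := X03_gt_pos h3
    refine ⟨?_, X03_gT_one h5⟩
    rcases X03_clamp cc x0 with ⟨_, _, h⟩ | ⟨h, _⟩ | ⟨h, _⟩
    · rw [h] at h5
      exact h5.imp le_of_lt le_of_lt
    · exact Or.inl (by linarith)
    · exact Or.inr (by linarith)
  by_cases hT : 0 < Sg (ρ11 + (1 - β) * (gt (cc.Φ 1 x0) * ct a2 (cx.Φ 1 x2) -
        gT (cc.Φ 1 x0) * bT a2 (cx.Φ 1 x2)))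
  · left
    have h1 := QM_Sg_pos hT
    have hb : β = 0 := by
      rcases hβ with h | h
      · exact h
      · rw [h] at h1
        norm_num at h1
        linarith [(abs_le.mp h11).2]
    subst hb
    have h2 : 0 < gt (cc.Φ 1 x0) * ct a2 (cx.Φ 1 x2) := by
      nlinarith [(abs_le.mp h11).2, mul_nonneg hgT0 hbT0]
    have h3 : 0 < gt (cc.Φ 1 x0) := by
      rcases hgt0.lt_or_eq with h | h
      · exact h
      · rw [← h] at h2; norm_num at h2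
    have h4 : 0 < ct a2 (cx.Φ 1 x2) := by
      rcases hct0.lt_or_eq with h | h
      · exact h
      · rw [← h] at h2; norm_num at h2
    obtain ⟨h5, h5'⟩ := hx0 h3
    obtain ⟨h6, h7, h8⟩ := X03_ct_pos h4
    have hx2 : cx.Φ 1 x2 = x2 := by
      rcases X03_clamp cx x2 with ⟨_, _, h⟩ | ⟨_, h⟩ | ⟨_, h⟩
      · exact h
      · linarith
      · linarith
    refine ⟨rfl, h5, ?_, ?_, ?_⟩
    · rw [hx2] at h6; exact h6.le
    · rw [hx2] at h7; exact h7.le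
    · rw [h5', X03_cT_one h6 h7 h8, QM_bt_zero (by linarith)]
      exact QM_Sg_one (by linarith [(abs_le.mp h10).1])
  · by_cases hH : Sg (ρ10 + (1 - β) * (gT (cc.Φ 1 x0) * cT a2 (cx.Φ 1 x2) -
        gt (cc.Φ 1 x0) * bt a2 (cx.Φ 1 x2))) < 0
    · right; left
      have h1 := QM_Sg_neg hH
      have hb : β = 0 := by
        rcases hβ with h | h
        · exact h
        · rw [h] at h1
          norm_num at h1
          linarith [(abs_le.mp h10).1]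
      subst hb
      have h2 : 0 < gt (cc.Φ 1 x0) * bt a2 (cx.Φ 1 x2) := by
        nlinarith [(abs_le.mp h10).1, mul_nonneg hgT0 hcT0]
      have h3 : 0 < gt (cc.Φ 1 x0) := by
        rcases hgt0.lt_or_eq with h | h
        · exact h
        · rw [← h] at h2; norm_num at h2
      have h4 : 0 < bt a2 (cx.Φ 1 x2) := by
        rcases hbt0.lt_or_eq with h | h
        · exact h
        · rw [← h] at h2; norm_num at h2
      obtain ⟨h5, h5'⟩ := hx0 h3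
      obtain ⟨h6, h7⟩ := QM_bt_pos h4
      refine ⟨rfl, h5, ?_, ?_, h6, h7⟩
      · rcases X03_clamp cx x2 with ⟨_, _, h⟩ | ⟨h, _⟩ | ⟨_, h⟩
        · rw [h] at h7; exact h7.le
        · linarith
        · linarith
      · rw [h5', QM_bT_one h6 h7, QM_ct_zero (by linarith)]
        exact QM_Sg_neg_one (by linarith [(abs_le.mp h11).2])
    · right; right
      exact ⟨not_lt.mp hH, not_lt.mp hT⟩

theorem QM_main (cc : Clamp (5/4)) (cx : Clamp (mm + 1/2)) (b : Bool) (s d : Fin 3)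
    (hsd : s ≠ d) (r : ℝ) (hr0 : 0 ≤ r) (hr1 : r ≤ 1) (z : Zs)
    (hS : ∀ i tr, |stk z i tr| ≤ 2 ^ 32) (hR : ∀ k, k ≠ 0 → |reg z k| ≤ 1/16)
    (hw : Wt b z = 1) (β : ℝ) (hβ : β = 0 ∨ β = 1)
    (hu : Sc (reg z 1 + Sc (cc.Φ 1 (stk z s 0))) = β) :
    MvB s d β (stk z) (stk (cm cc cx b s d r z)) := by
  have hmm := X03_mm
  have hlam := X03_lam
  have hlam0 := X03_lam_pos
  have hβ0 : 0 ≤ β := by rcases hβ with h | h <;> rw [h] <;> norm_num
  have hβ1 : β ≤ 1 := by rcases hβ with h | h <;> rw [h] <;> norm_num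
  have hs := QM_out_s cc cx b s d hsd r z hw
  have hd := QM_out_d cc cx b s d hsd r z hw
  have s0 := X03_M0_lo cc cx s d s z (Or.inl rfl) 0 (by decide)
  have s1 := X03_M0_lo cc cx s d s z (Or.inl rfl) 1 (by decide)
  have s2 := X03_M0_hi cc cx s d s z (Or.inl rfl) 2 (by decide)
  have s3 := X03_M0_hi cc cx s d s z (Or.inl rfl) 3 (by decide)
  have s4 := X03_M0_hi cc cx s d s z (Or.inl rfl) 4 (by decide)
  have d0 := X03_M0_lo cc cx s d d z (Or.inr rfl) 0 (by decide)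
  have d1 := X03_M0_lo cc cx s d d z (Or.inr rfl) 1 (by decide)
  have d2 := X03_M0_hi cc cx s d d z (Or.inr rfl) 2 (by decide)
  have d3 := X03_M0_hi cc cx s d d z (Or.inr rfl) 3 (by decide)
  have d4 := X03_M0_hi cc cx s d d z (Or.inr rfl) 4 (by decide)
  unfold QM_hT QM_ht at hd
  rw [s0, s1, s2, s3, s4] at hs
  rw [s0, s2, s3, s4, d0, d1, d2] at hd
  rw [hu] at hs hd
  have a0 : stk (cm cc cx b s d r z) s 0 = lam * (cc.Φ 1 (stk z s 0) - β) := by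
    rw [hs 0, s0]; rfl
  have a1 : stk (cm cc cx b s d r z) s 1 =
      lam * (cc.Φ 1 (stk z s 1) - Sc (reg z 2 + Sc (cc.Φ 1 (stk z s 1)))) := by
    rw [hs 1, s1]; rfl
  have a2 : stk (cm cc cx b s d r z) s 2 =
      lam * (cx.Φ 1 (stk z s 2) - Qx (reg z 7 + S2 (cx.Φ 1 (stk z s 2)))) := by
    rw [hs 2, X03_v2 _ _ _ _ _ _ rfl, s2]
  have a3 : stk (cm cc cx b s d r z) s 3 =
      lam * (cx.Φ 1 (stk z s 3) - Qx (reg z 8 + S2 (cx.Φ 1 (stk z s 3)))) := by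
    rw [hs 3, X03_v3 _ _ _ _ _ _ rfl, s3]
  have a4 : stk (cm cc cx b s d r z) s 4 =
      lam * (cx.Φ 1 (stk z s 4) - Qx (reg z 9 + S2 (cx.Φ 1 (stk z s 4)))) := by
    rw [hs 4, X03_v4 _ _ _ _ _ _ rfl, s4]
  have b0 : stk (cm cc cx b s d r z) d 0 = cc.Φ 1 (stk z d 0) / lam + (1 - β) := by
    rw [hd 0, d0, if_neg (by decide), sub_zero]; rfl
  have b1 : stk (cm cc cx b s d r z) d 1 = cc.Φ 1 (stk z d 1) / lam +
      (1 - β) * (1 - Sc (reg z 3 + Sc (cc.Φ 1 (stk z d 1)))) := by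
    rw [hd 1, d1, if_neg (by decide), sub_zero]; rfl
  have b2 := hd 2
  have b3 := hd 3
  have b4 := hd 4
  rw [if_pos rfl, d2, X03_v2 _ _ _ _ _ _ rfl] at b2
  rw [if_neg (by decide), d3, sub_zero, X03_v3 _ _ _ _ _ _ rfl] at b3
  rw [if_neg (by decide), d4, sub_zero, X03_v4 _ _ _ _ _ _ rfl] at b4
  have rc : ∀ i tr, |cc.Φ 1 (stk z i tr) / lam| ≤ 1/16 := by
    intro i tr
    have := cc.rng _ (hS i tr)
    rw [abs_le]
    constructor
    · rw [le_div_iff₀ hlam0, hlam]; linarith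
    · rw [div_le_iff₀ hlam0, hlam]; linarith
  have cancel : ∀ x : ℝ, lam * (x / lam) = x := fun x => by field_simp
  refine ⟨?_, ?_, ?_, ?_, ?_, ?_, ?_, ?_⟩
  · rw [a0, X03_hC_lam cc _ β hβ0 hβ1]
  · rw [b0, add_sub_cancel_right]
    exact rc d 0
  · rw [b0, add_sub_cancel_right, cancel, X03_hC_clamp]
  · intro h
    rw [a1, X03_read0 cc h (hR 2 (by decide)), X03_hC_lam cc _ 0 le_rfl zero_le_one, sub_zero]
  · intro h
    rw [a1, X03_read1 cc h (hR 2 (by decide)), X03_hC_lam cc _ 1 zero_le_one le_rfl]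
  · intro h
    rw [b1, h]
    simp only [sub_self, zero_mul, add_zero]
    exact ⟨rc d 1, by rw [cancel, X03_hC_clamp]⟩
  · intro h
    refine ⟨fun h1 => ?_, fun h1 => ?_⟩
    · rw [b1, h, X03_read0 cc h1 (hR 3 (by decide))]
      simp only [sub_zero, one_mul, add_sub_cancel_right]
      exact ⟨rc d 1, by rw [cancel, X03_hC_clamp]⟩
    · rw [b1, h, X03_read1 cc h1 (hR 3 (by decide))]
      simp only [sub_self, mul_zero, add_zero]
      exact ⟨rc d 1, by rw [cancel, X03_hC_clamp]⟩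
  · -- data
    have u0 := X03_read cx (stk z s 2) (reg z 4) (hR 4 (by decide))
    have u1 := X03_read cx (stk z s 3) (reg z 5) (hR 5 (by decide))
    have u2 := X03_read cx (stk z s 4) (reg z 6) (hR 6 (by decide))
    generalize Qx (reg z 4 + S1 (cx.Φ 1 (stk z s 2))) = A0 at *
    generalize Qx (reg z 5 + S1 (cx.Φ 1 (stk z s 3))) = A1 at *
    generalize Qx (reg z 6 + S1 (cx.Φ 1 (stk z s 4))) = A2 at *
    have hg := QM_gates cc cx β (reg z 10) (reg z 11) (stk z d 0) (stk z d 2) A2 hβ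
      (hR 10 (by decide)) (hR 11 (by decide))
    have hH0 := QM_Sg_ge (reg z 10 + (1 - β) * (gT (cc.Φ 1 (stk z d 0)) *
      cT A2 (cx.Φ 1 (stk z d 2)) - gt (cc.Φ 1 (stk z d 0)) * bt A2 (cx.Φ 1 (stk z d 2))))
    have hH1 := QM_Sg_le (reg z 10 + (1 - β) * (gT (cc.Φ 1 (stk z d 0)) *
      cT A2 (cx.Φ 1 (stk z d 2)) - gt (cc.Φ 1 (stk z d 0)) * bt A2 (cx.Φ 1 (stk z d 2))))
    have hT1 := QM_Sg_le (reg z 11 + (1 - β) * (gt (cc.Φ 1 (stk z d 0)) *
      ct A2 (cx.Φ 1 (stk z d 2)) - gT (cc.Φ 1 (stk z d 0)) * bT A2 (cx.Φ 1 (stk z d 2))))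
    generalize Sg (reg z 11 + (1 - β) * (gt (cc.Φ 1 (stk z d 0)) *
      ct A2 (cx.Φ 1 (stk z d 2)) - gT (cc.Φ 1 (stk z d 0)) * bT A2 (cx.Φ 1 (stk z d 2)))) = T at *
    generalize Sg (reg z 10 + (1 - β) * (gT (cc.Φ 1 (stk z d 0)) *
      cT A2 (cx.Φ 1 (stk z d 2)) - gt (cc.Φ 1 (stk z d 0)) * bt A2 (cx.Φ 1 (stk z d 2)))) = H at *
    have hbb := QM_bb
    have hbH : (bb : ℝ) * H = 4095 * H := by rw [hbb]
    obtain ⟨f, E2, hE20, hE2, hE2f, hfd, hfc, hy1, hy2, hyf⟩ :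
        ∃ (f : Fl) (E2 : ℤ), 0 ≤ E2 ∧ A2 + T ≤ E2 ∧
          (E2 : ℝ) + f.cre ≤ (Dg 0 (stk z s 4) : ℝ) + f.deb ∧
          (f = Fl.d → β = 0 ∧ (stk z d 0 ≤ 1/8 ∨ 7/8 ≤ stk z d 0) ∧
            (mm : ℝ) - 1/4 ≤ stk z d 2 ∧ stk z d 2 ≤ mm + 1/4) ∧
          (f = Fl.c → β = 0 ∧ (stk z d 0 ≤ 1/8 ∨ 7/8 ≤ stk z d 0) ∧ stk z d 2 ≤ 1/4) ∧
          -1/2 - (mm : ℝ) ≤ cx.Φ 1 (stk z d 2) - bb * H ∧
          cx.Φ 1 (stk z d 2) - bb * H ≤ mm + 3/4 ∧
          hX (cx.Φ 1 (stk z d 2) - bb * H) ≤ hX (hX (stk z d 2) + f.chg) := by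
      have r2 := cx.rng _ (hS d 2)
      have hDg := X03_Dg_nonneg 0 (stk z s 4)
      rcases hg with ⟨g1, g2, g3, g4, g5⟩ | ⟨g1, g2, g3, g4, g5, g6⟩ | ⟨g1, g2⟩
      · refine ⟨Fl.d, Dg 0 (stk z s 4) + 1, by omega, ?_, ?_, fun _ => ⟨g1, g2, g3, g4⟩,
          fun h => absurd h (by decide), ?_, ?_, ?_⟩
        · push_cast; linarith
        · simp [Fl.cre, Fl.deb]
        · rw [g5]; linarith
        · rw [g5]; linarith
        · rw [g5, mul_one, cx.fix 1 _ (by linarith) (by linarith),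
            X03_hX_eq (x := stk z d 2) (by linarith) (by linarith)]
          exact le_of_eq rfl
      · refine ⟨Fl.c, Dg 0 (stk z s 4) - 1, ?_, ?_, ?_, fun h => absurd h (by decide),
          fun _ => ⟨g1, g2, g3⟩, ?_, ?_, ?_⟩
        · have h1 : (0:ℝ) < Dg 0 (stk z s 4) := by linarith
          have h2 : 0 < Dg 0 (stk z s 4) := by exact_mod_cast h1
          omega
        · push_cast; linarith
        · simp [Fl.cre, Fl.deb]
        · linarith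
        · linarith
        · apply X03_hX_mono
          have h1 : cx.Φ 1 (stk z d 2) ≤ hX (stk z d 2) := by
            rcases X03_clamp cx (stk z d 2) with ⟨h2, h3, h⟩ | ⟨h2, h3⟩ | ⟨h2, h3⟩
            · rw [h, X03_hX_eq h2 h3]
            · rw [X03_hX_lo h2.le]; exact h3
            · linarith
          show _ ≤ hX (stk z d 2) + (bb : ℝ)
          linarith
      · refine ⟨Fl.n, Dg 0 (stk z s 4), hDg, ?_, ?_, fun h => absurd h (by decide),
          fun h => absurd h (by decide), ?_, ?_, ?_⟩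
        · linarith
        · simp [Fl.cre, Fl.deb]
        · linarith
        · linarith
        · show _ ≤ hX (hX (stk z d 2) + 0)
          rw [add_zero, QM_hX_hX]
          refine le_trans ?_ (X03_hX_clamp cx (stk z d 2)).le
          apply X03_hX_mono
          linarith
    refine ⟨f, fun k => max 0 ⌈GG A0 A1 A2 T k - 1/4⌉, hfd, hfc, ?_, ?_⟩
    · exact QM_Vz A0 A1 A2 T (fun k => Dg 0 (stk z s (dt k))) (fun k => X03_Dg_nonneg _ _)
        u0 u1 f E2 hE20 hE2 hE2f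
    · have r3 := cx.rng _ (hS d 3)
      have r4 := cx.rng _ (hS d 4)
      intro k
      have hgk : 0 ≤ (max 0 ⌈GG A0 A1 A2 T k - 1/4⌉ : ℤ) := le_max_left _ _
      have hq := X03_q_le (GG A0 A1 A2 T k) r hr0 hr1
      have hq0 := X03_Qx_nonneg (GG A0 A1 A2 T k * (1 - r))
      have hqm := X03_Qx_le_mm (GG A0 A1 A2 T k * (1 - r))
      fin_cases k
      · -- k = 0
        have b2' : stk (cm cc cx b s d r z) d 2 =
          (cx.Φ 1 (stk z d 2) - bb * H) / lam + Qx (GG A0 A1 A2 T 0 * (1 - r)) := b2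
        obtain ⟨c1, c2, c3, c4, -⟩ := X03_tgt (cx.Φ 1 (stk z d 2) - bb * H)
          (Qx (GG A0 A1 A2 T 0 * (1 - r))) (max 0 ⌈GG A0 A1 A2 T 0 - 1/4⌉) hgk
          hy1 hy2 hq0 hqm hq
        rw [← b2'] at c1 c2 c3 c4
        refine ⟨?_, c1, c2, c3, fun _ => ?_⟩
        · show hX (stk (cm cc cx b s d r z) s 2) ≤ _
          rw [a2]
          exact X03_src cx _ _ (hR 7 (by decide))
        · exact (c4.trans hyf).trans (le_max_left _ _)
      · -- k = 1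
        have b3' : stk (cm cc cx b s d r z) d 3 =
          cx.Φ 1 (stk z d 3) / lam + Qx (GG A0 A1 A2 T 1 * (1 - r)) := b3
        obtain ⟨c1, c2, c3, c4, -⟩ := X03_tgt (cx.Φ 1 (stk z d 3))
          (Qx (GG A0 A1 A2 T 1 * (1 - r))) (max 0 ⌈GG A0 A1 A2 T 1 - 1/4⌉) hgk
          (by linarith) (by linarith) hq0 hqm hq
        rw [← b3'] at c1 c2 c3 c4
        refine ⟨?_, c1, c2, c3, fun _ => ?_⟩
        · show hX (stk (cm cc cx b s d r z) s 3) ≤ _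
          rw [a3]
          exact X03_src cx _ _ (hR 8 (by decide))
        · refine le_trans c4 ?_
          refine le_trans ?_ (le_max_left _ _)
          rw [if_neg (by simp), add_zero, QM_hX_hX]
          exact (X03_hX_clamp cx _).le
      · -- k = 2
        have b4' : stk (cm cc cx b s d r z) d 4 =
          cx.Φ 1 (stk z d 4) / lam + Qx (GG A0 A1 A2 T 2 * (1 - r)) := b4
        obtain ⟨c1, c2, c3, c4, -⟩ := X03_tgt (cx.Φ 1 (stk z d 4))
          (Qx (GG A0 A1 A2 T 2 * (1 - r))) (max 0 ⌈GG A0 A1 A2 T 2 - 1/4⌉) hgk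
          (by linarith) (by linarith) hq0 hqm hq
        rw [← b4'] at c1 c2 c3 c4
        refine ⟨?_, c1, c2, c3, fun _ => ?_⟩
        · show hX (stk (cm cc cx b s d r z) s 4) ≤ _
          rw [a4]
          exact X03_src cx _ _ (hR 9 (by decide))
        · refine le_trans c4 ?_
          refine le_trans ?_ (le_max_left _ _)
          rw [if_neg (by simp), add_zero, QM_hX_hX]
          exact (X03_hX_clamp cx _).le

/-- TARGET -/
theorem cm_move (cc : Clamp (5/4)) (cx : Clamp (mm + 1/2)) (b : Bool) (s d : Fin 3)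
    (hsd : s ≠ d) (r : ℝ) (hr0 : 0 ≤ r) (hr1 : r ≤ 1) (z : Zs)
    (hS : ∀ i tr, |stk z i tr| ≤ 2 ^ 32) (hR : ∀ k, k ≠ 0 → |reg z k| ≤ 1/16)
    (hw : Wt b z = 1) :
    Mv s d (stk z) (stk (cm cc cx b s d r z)) := by
  refine ⟨fun h => ?_, fun h => ?_⟩
  · exact QM_main cc cx b s d hsd r hr0 hr1 z hS hR hw 0 (Or.inl rfl)
      (X03_read0 cc h (hR 1 (by decide)))
  · exact QM_main cc cx b s d hsd r hr0 hr1 z hS hR hw 1 (Or.inr rfl)
      (X03_read1 cc h (hR 1 (by decide)))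

end Pool.Agent.Y203.QC
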